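import Pool.Agent.R592.Sl.Ground

/-!
# Continuum many slalom numbers for a single ideal

We force with the finite partial functions from `C × ω` to `ω`, where `C` has the size of a
fixed point `λ` of the function `ℶ` of cofinality `ω₁`. For each of the `λ` many successor
cardinals `κ i` below `λ` the index set `C` contains an index of a branch `b i` through the tree
of the finite sequences, and indices of two functions `lo i β`, `up i β` for each `β < κ i`.
The ideal `J` consists of the sets `A` such that for each `i` all long members of the branch `b i`
which are in `A` violate one of finitely many requirements `lo i β ≠ y`, where `y` is a function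
added before `lo i β`. The function `h` which gives the value `κ i` is the characteristic function
of the set of the codes of the members of the branch `b i`: these sets are almost disjoint, and
so the same ideal can be used for all `i`.

The forcing language is that of `Pool.Agent.TH773.PSet.Defs`: a sentence is a set of conditions,
and `p ∈ φ` says that `p` forces `φ`.
-/

set_option autoImplicit false

open Cardinal Pool.Agent.R592.Sl

namespace Pool.Agent.Results.MP_8b2a7f_lc.CohenMany

/-- It is consistent that there is an ideal `J` on `ω` with `|V_J| = 𝔠`.

(1) There is a family `κ` of pairwise different cardinals, indexed by a set `I`, such that some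
nonempty forcing forces the sentence `Model I κ`.
(2) The meaning of the sentence `Model I κ` (its value over the trivial forcing) is that
`𝔠 ≤ |I|` and that there is an ideal `J` on `ω` such that every `κ i` is the value of
`𝔰𝔩ₑ(h, J)` for some `h`.
(3) So it implies that `|V_J| = 𝔠` for some ideal `J` on `ω`. -/
theorem result :
    (∃ (I : Type) (κ : I → Cardinal.{0}) (P : Type) (_ : Preorder P),
      Function.Injective κ ∧ Nonempty P ∧ ∀ p : P, p ∈ Model P I κ) ∧
    (∀ (I : Type) (κ : I → Cardinal.{0}) (p : Unit), p ∈ Model Unit I κ ↔
      (𝔠 ≤ #I ∧ ∃ J, Ideal' J ∧ ∀ i, ∃ h, IsLeast (famE h J) (κ i))) ∧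
    (∀ (I : Type) (κ : I → Cardinal.{0}) (p : Unit), Function.Injective κ →
      p ∈ Model Unit I κ → ∃ J, Ideal' J ∧ #(VJ J) = (𝔠 : Cardinal.{1})) := by
  refine ⟨exists_model, fun I κ p => unit_model, fun I κ p hκ hp => ?_⟩
  obtain ⟨hI, J, hJ, h⟩ := unit_model.1 hp
  exact ⟨J, hJ, mk_VJ hκ hI h⟩

end Pool.Agent.Results.MP_8b2a7f_lc.CohenMany
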